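import Mathlib

/-!
Bilinear exponential sums, following Karatsuba's method.
-/

namespace Pool.Agent.H494R2.ModHyp

open Finset

/-- Power mean. -/
theorem sum_pow_le_card {α : Type*} (s : Finset α) (f : α → ℝ) (hf : ∀ a ∈ s, 0 ≤ f a)
    (K : ℕ) (hK : 0 < K) : (∑ a ∈ s, f a) ^ K ≤ (s.card : ℝ) ^ (K - 1) * ∑ a ∈ s, f a ^ K := by
  obtain ⟨k, rfl⟩ : ∃ k, K = k + 1 := ⟨K - 1, by omega⟩
  rcases s.eq_empty_or_nonempty with h | h
  · subst h; simp
  · have h1 := pow_sum_div_card_le_sum_pow hf k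
    have h2 : (0 : ℝ) < (s.card : ℝ) ^ k := by
      have := h.card_pos
      positivity
    rw [div_le_iff₀ h2] at h1
    simpa [mul_comm] using h1

/-- Cauchy-Schwarz for a function of a random point. -/
theorem sum_comp_sq_le {Ω R : Type*} [Fintype Ω] [DecidableEq Ω] [Fintype R] [DecidableEq R]
    (f : Ω → R) (g : R → ℝ) :
    (∑ x, g (f x)) ^ 2 ≤ ((univ.filter (fun z : Ω × Ω => f z.1 = f z.2)).card : ℝ)
      * ∑ y, g y ^ 2 := by
  have h1 : ∑ x, g (f x) = ∑ y, ((univ.filter (fun x => f x = y)).card : ℝ) * g y := by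
    rw [← Finset.sum_fiberwise_of_maps_to (s := univ) (t := univ) (g := f)
      (fun x _ => Finset.mem_univ _)]
    refine Finset.sum_congr rfl fun y _ => ?_
    rw [Finset.sum_congr rfl (g := fun _ => g y), Finset.sum_const, nsmul_eq_mul]
    intro x hx
    rw [(Finset.mem_filter.1 hx).2]
  have h2 : ((univ.filter (fun z : Ω × Ω => f z.1 = f z.2)).card : ℝ)
      = ∑ y, ((univ.filter (fun x => f x = y)).card : ℝ) ^ 2 := by
    have h3 : (univ.filter (fun z : Ω × Ω => f z.1 = f z.2)).card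
        = ∑ y : R, ((univ.filter (fun z : Ω × Ω => f z.1 = f z.2)).filter
          (fun z => f z.1 = y)).card :=
      Finset.card_eq_sum_card_fiberwise (fun x _ => Finset.mem_univ _)
    rw [h3]
    push_cast
    refine Finset.sum_congr rfl fun y _ => ?_
    rw [sq, ← Nat.cast_mul, ← Finset.card_product]
    congr 2
    ext z
    simp only [Finset.mem_filter, Finset.mem_univ, true_and, Finset.mem_product]
    constructor
    · rintro ⟨h, h'⟩; exact ⟨h', h ▸ h'⟩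
    · rintro ⟨h, h'⟩; exact ⟨h.trans h'.symm, h⟩
  rw [h1, h2]
  exact Finset.sum_mul_sq_le_sq_mul_sq _ _ _

theorem psi_sum {A α : Type*} [AddCommGroup A] (ψ : AddChar A ℂ) (s : Finset α) (f : α → A) :
    ψ (∑ i ∈ s, f i) = ∏ i ∈ s, ψ (f i) := by
  classical
  induction s using Finset.induction_on with
  | empty => simp
  | insert a s ha ih =>
    rw [Finset.sum_insert ha, Finset.prod_insert ha, AddChar.map_add_eq_mul, ih]

section

variable {n : ℕ} [NeZero n] (ψ : AddChar (ZMod n) ℂ) {ι : Type*} [Fintype ι]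
  (u : ι → ZMod n)

/-- Expansion of an even power. -/
theorem norm_pow_expand (e : ZMod n) (l : ℕ) :
    ((‖∑ p, ψ (e * u p)‖ ^ (2 * l) : ℝ) : ℂ)
      = ∑ x : (Fin l → ι) × (Fin l → ι), ψ (e * (∑ i, u (x.1 i) - ∑ i, u (x.2 i))) := by
  have h1 : ((‖∑ p, ψ (e * u p)‖ ^ (2 * l) : ℝ) : ℂ)
      = (∑ p, ψ (e * u p)) ^ l * ((starRingEnd ℂ) (∑ p, ψ (e * u p))) ^ l := by
    rw [← mul_pow, Complex.mul_conj', pow_mul]
    push_cast
    rfl
  have h2 : (∑ p, ψ (e * u p)) ^ l = ∑ t : Fin l → ι, ψ (e * ∑ i, u (t i)) := by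
    rw [Fintype.sum_pow]
    refine Finset.sum_congr rfl fun t _ => ?_
    rw [Finset.mul_sum, psi_sum]
  have h3 : ((starRingEnd ℂ) (∑ p, ψ (e * u p))) ^ l
      = ∑ t : Fin l → ι, ψ (-(e * ∑ i, u (t i))) := by
    rw [← map_pow, h2, map_sum]
    refine Finset.sum_congr rfl fun t _ => ?_
    rw [AddChar.map_neg_eq_conj]
  rw [h1, h2, h3, Finset.sum_mul_sum, Fintype.sum_prod_type]
  refine Finset.sum_congr rfl fun t _ => Finset.sum_congr rfl fun s _ => ?_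
  rw [← AddChar.map_add_eq_mul]
  congr 1
  ring

/-- The moment over all frequencies. -/
theorem moment (hψ : ψ.IsPrimitive) (d : ZMod n) (l : ℕ) :
    ∑ a : ZMod n, ‖∑ p, ψ (a * (d * u p))‖ ^ (2 * l)
      = n * ((univ.filter (fun x : (Fin l → ι) × (Fin l → ι) =>
          d * (∑ i, u (x.1 i) - ∑ i, u (x.2 i)) = 0)).card : ℝ) := by
  have h : ((∑ a : ZMod n, ‖∑ p, ψ (a * (d * u p))‖ ^ (2 * l) : ℝ) : ℂ)
      = ((n * ((univ.filter (fun x : (Fin l → ι) × (Fin l → ι) =>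
          d * (∑ i, u (x.1 i) - ∑ i, u (x.2 i)) = 0)).card : ℝ) : ℝ) : ℂ) := by
    rw [Complex.ofReal_sum]
    have h1 : ∀ a : ZMod n, ((‖∑ p, ψ (a * (d * u p))‖ ^ (2 * l) : ℝ) : ℂ)
        = ∑ x : (Fin l → ι) × (Fin l → ι), ψ (a * (d * (∑ i, u (x.1 i) - ∑ i, u (x.2 i)))) := by
      intro a
      rw [norm_pow_expand ψ (fun p => d * u p) a l]
      refine Finset.sum_congr rfl fun x _ => ?_
      rw [← Finset.mul_sum, ← Finset.mul_sum]
      congr 1
      ring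
    rw [Finset.sum_congr rfl (fun a _ => h1 a), Finset.sum_comm]
    have h2 : ∀ x : (Fin l → ι) × (Fin l → ι),
        ∑ a : ZMod n, ψ (a * (d * (∑ i, u (x.1 i) - ∑ i, u (x.2 i))))
        = if d * (∑ i, u (x.1 i) - ∑ i, u (x.2 i)) = 0 then (n : ℂ) else 0 := by
      intro x
      rw [AddChar.sum_mulShift _ hψ, ZMod.card]
      split_ifs <;> simp
    rw [Finset.sum_congr rfl (fun x _ => h2 x), Finset.sum_ite, Finset.sum_const,
      Finset.sum_const_zero, add_zero, nsmul_eq_mul]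
    push_cast
    ring
  exact_mod_cast h

/-- The bilinear estimate. `k` is the half length. -/
theorem bilinear [DecidableEq ι] (hψ : ψ.IsPrimitive) (d : ZMod n) (k : ℕ) (hk : 0 < k) (E₁ E₂ : ℝ)
    (hE₁ : ((univ.filter (fun z : ((Fin k → ι) × (Fin k → ι)) × ((Fin k → ι) × (Fin k → ι)) =>
          (∑ i, u (z.1.1 i) - ∑ i, u (z.1.2 i)) = (∑ i, u (z.2.1 i) - ∑ i, u (z.2.2 i)))).card : ℝ)
            ≤ E₁)
    (hE₂ : ((univ.filter (fun x : (Fin (k + k) → ι) × (Fin (k + k) → ι) =>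
          d * (∑ i, u (x.1 i) - ∑ i, u (x.2 i)) = 0)).card : ℝ) ≤ E₂) :
    ‖∑ p, ∑ q, ψ (d * u p * u q)‖ ^ (2 * (2 * k) ^ 2)
      ≤ (Fintype.card ι : ℝ) ^ (4 * (2 * k) ^ 2 - 4 * (2 * k)) * (E₁ * (n * E₂)) := by
  classical
  set m : ℝ := (Fintype.card ι : ℝ) with hm
  set K := 2 * k with hK
  have hK0 : 0 < K := by omega
  -- first step
  have h1 : ‖∑ p, ∑ q, ψ (d * u p * u q)‖ ^ K
      ≤ m ^ (K - 1) * ∑ p, ‖∑ q, ψ (d * u p * u q)‖ ^ K := by
    calc ‖∑ p, ∑ q, ψ (d * u p * u q)‖ ^ K ≤ (∑ p, ‖∑ q, ψ (d * u p * u q)‖) ^ K :=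
          pow_le_pow_left₀ (norm_nonneg _) (norm_sum_le _ _) _
      _ ≤ _ := by
          have := sum_pow_le_card (univ : Finset ι) (fun p => ‖∑ q, ψ (d * u p * u q)‖)
            (fun _ _ => norm_nonneg _) K hK0
          rwa [Finset.card_univ] at this
  -- expansion
  set f : (Fin k → ι) × (Fin k → ι) → ZMod n := fun x => ∑ i, u (x.1 i) - ∑ i, u (x.2 i) with hf
  set W : ZMod n → ℂ := fun a => ∑ p, ψ (a * (d * u p)) with hW
  have h2 : ∑ p, ‖∑ q, ψ (d * u p * u q)‖ ^ K ≤ ∑ x, ‖W (f x)‖ := by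
    have h3 : ((∑ p, ‖∑ q, ψ (d * u p * u q)‖ ^ K : ℝ) : ℂ) = ∑ x, W (f x) := by
      rw [Complex.ofReal_sum]
      simp only [hW]
      rw [Finset.sum_comm]
      refine Finset.sum_congr rfl fun p _ => ?_
      rw [hK, norm_pow_expand ψ u (d * u p) k]
      refine Finset.sum_congr rfl fun x _ => ?_
      simp only [hf]
      congr 1
      ring
    have h4 : (∑ p, ‖∑ q, ψ (d * u p * u q)‖ ^ K : ℝ)
        = ‖((∑ p, ‖∑ q, ψ (d * u p * u q)‖ ^ K : ℝ) : ℂ)‖ := by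
      rw [Complex.norm_real, Real.norm_of_nonneg]
      positivity
    rw [h4, h3]
    exact norm_sum_le _ _
  have h5 : (∑ x, ‖W (f x)‖) ^ K ≤ (m ^ (2 * k)) ^ (K - 1) * ∑ x, ‖W (f x)‖ ^ K := by
    have := sum_pow_le_card (univ : Finset ((Fin k → ι) × (Fin k → ι))) (fun x => ‖W (f x)‖)
            (fun _ _ => norm_nonneg _) K hK0
    have hc : ((univ : Finset ((Fin k → ι) × (Fin k → ι))).card : ℝ) = m ^ (2 * k) := by
      rw [Finset.card_univ, Fintype.card_prod, Fintype.card_fun, Fintype.card_fin, two_mul,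
        pow_add]
      push_cast
      rfl
    rwa [hc] at this
  have h6 : (∑ x, ‖W (f x)‖ ^ K) ^ 2 ≤ E₁ * (n * E₂) := by
    have h7 := sum_comp_sq_le f (fun a => ‖W a‖ ^ K)
    have h8 : ∑ a, (‖W a‖ ^ K) ^ 2 = ∑ a : ZMod n, ‖∑ p, ψ (a * (d * u p))‖ ^ (2 * (k + k)) := by
      refine Finset.sum_congr rfl fun a _ => ?_
      rw [← pow_mul, mul_comm K 2, hK, two_mul k]
    rw [h8, moment ψ u hψ d (k + k)] at h7
    refine h7.trans ?_
    have hE1n : 0 ≤ E₁ := le_trans (by positivity) hE₁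
    apply mul_le_mul hE₁ _ (by positivity) hE1n
    exact mul_le_mul_of_nonneg_left hE₂ (by positivity)
  -- combine
  have hm0 : 0 ≤ m := by positivity
  have hS : 0 ≤ ∑ x, ‖W (f x)‖ := Finset.sum_nonneg fun _ _ => norm_nonneg _
  have hS' : 0 ≤ ∑ x, ‖W (f x)‖ ^ K := Finset.sum_nonneg fun _ _ => by positivity
  have h9 : ‖∑ p, ∑ q, ψ (d * u p * u q)‖ ^ K ≤ m ^ (K - 1) * ∑ x, ‖W (f x)‖ :=
    h1.trans (mul_le_mul_of_nonneg_left h2 (by positivity))
  have h10 : (‖∑ p, ∑ q, ψ (d * u p * u q)‖ ^ K) ^ K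
      ≤ (m ^ (K - 1)) ^ K * ((m ^ (2 * k)) ^ (K - 1) * ∑ x, ‖W (f x)‖ ^ K) := by
    refine (pow_le_pow_left₀ (by positivity) h9 K).trans ?_
    rw [mul_pow]
    exact mul_le_mul_of_nonneg_left h5 (by positivity)
  have h11 : ((‖∑ p, ∑ q, ψ (d * u p * u q)‖ ^ K) ^ K) ^ 2
      ≤ ((m ^ (K - 1)) ^ K * (m ^ (2 * k)) ^ (K - 1)) ^ 2 * (E₁ * (n * E₂)) := by
    refine (pow_le_pow_left₀ (by positivity) h10 2).trans ?_
    rw [← mul_assoc, mul_pow]
    exact mul_le_mul_of_nonneg_left h6 (by positivity)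
  have e1 : ‖∑ p, ∑ q, ψ (d * u p * u q)‖ ^ (2 * K ^ 2)
      = ((‖∑ p, ∑ q, ψ (d * u p * u q)‖ ^ K) ^ K) ^ 2 := by
    rw [← pow_mul, ← pow_mul]
    congr 1
    ring
  have e2 : ((m ^ (K - 1)) ^ K * (m ^ (2 * k)) ^ (K - 1)) ^ 2 = m ^ (4 * K ^ 2 - 4 * K) := by
    rw [← pow_mul, ← pow_mul, ← pow_add, ← pow_mul]
    congr 1
    obtain ⟨j, hj⟩ : ∃ j, K = j + 1 := ⟨K - 1, by omega⟩
    rw [← hK, hj]
    simp only [Nat.add_sub_cancel]
    have h1 : 4 * (j + 1) ^ 2 - 4 * (j + 1) = 4 * (j + 1) * j := by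
      have : 4 * (j + 1) ^ 2 = 4 * (j + 1) * j + 4 * (j + 1) := by ring
      rw [this, Nat.add_sub_cancel]
    rw [h1]
    ring
  rw [e1]
  rw [e2] at h11
  exact h11

end

end Pool.Agent.H494R2.ModHyp
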