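import Pool.Agent.H494R2.ModHyp.Diag
import Pool.Agent.H494R2.ModHyp.Holder

/-!
The bound for bilinear sums over inverses of primes.
-/

namespace Pool.Agent.H494R2.ModHyp

open Finset

theorem card_four_le {R ι : Type*} [AddCommGroup R] [DecidableEq R] [Fintype ι] [DecidableEq ι]
    (u : ι → R) (k : ℕ) :
    (univ.filter (fun z : ((Fin k → ι) × (Fin k → ι)) × ((Fin k → ι) × (Fin k → ι)) =>
          (∑ i, u (z.1.1 i) - ∑ i, u (z.1.2 i)) = (∑ i, u (z.2.1 i) - ∑ i, u (z.2.2 i)))).card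
    ≤ (univ.filter (fun x : (Fin (k + k) → ι) × (Fin (k + k) → ι) =>
          (∑ i, u (x.1 i) - ∑ i, u (x.2 i)) = 0)).card := by
  apply Finset.card_le_card_of_injOn
    (fun z => (Fin.append z.1.1 z.2.2, Fin.append z.1.2 z.2.1))
  · intro z hz
    rw [Finset.mem_coe, Finset.mem_filter] at hz ⊢
    refine ⟨Finset.mem_univ _, ?_⟩
    have h := hz.2
    simp only [Fin.sum_univ_add, Fin.append_left, Fin.append_right]
    rw [sub_eq_sub_iff_add_eq_add] at h
    rw [h, add_comm, sub_self]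
  · rintro ⟨⟨a, b⟩, c, d⟩ _ ⟨⟨a', b'⟩, c', d'⟩ _ h
    simp only [Prod.mk.injEq] at h
    obtain ⟨h1, h2⟩ := h
    have ha : a = a' := by
      funext i
      have := congrFun h1 (Fin.castAdd k i)
      simpa [Fin.append_left] using this
    have hd : d = d' := by
      funext i
      have := congrFun h1 (Fin.natAdd k i)
      rwa [Fin.append_right, Fin.append_right] at this
    have hb : b = b' := by
      funext i
      have := congrFun h2 (Fin.castAdd k i)
      simpa [Fin.append_left] using this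
    have hc : c = c' := by
      funext i
      have := congrFun h2 (Fin.natAdd k i)
      rwa [Fin.append_right, Fin.append_right] at this
    rw [ha, hb, hc, hd]

/-- The bound for bilinear sums over inverses of primes. -/
theorem S_bound {n X T k : ℕ} [NeZero n] (ψ : AddChar (ZMod n) ℂ) (hψ : ψ.IsPrimitive)
    {P : Finset ℕ} (hk : 0 < k) (hT : 0 < T)
    (hP : ∀ p ∈ P, p.Prime) (hl : ∀ p ∈ P, k + k < p) (hX : ∀ p ∈ P, p ≤ X)
    (hco : ∀ p ∈ P, Nat.Coprime p n)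
    (hsize : T * ((k + k) * X ^ (2 * (k + k) - 1)) < n)
    (hm : (n : ℝ) * ((k + k).factorial : ℝ) ^ 2 * (2 * T : ℝ) ^ (2 * (2 * k) ^ 2)
      ≤ (P.card : ℝ) ^ (2 * (2 * k)))
    (c : ℤ) (hc0 : c ≠ 0) (hcT : |c| ≤ T) :
    2 * T * ‖∑ p : P, ∑ q : P, ψ ((c : ZMod n) * (((p : ℕ) : ZMod n))⁻¹ * (((q : ℕ) : ZMod n))⁻¹)‖
      ≤ (P.card : ℝ) ^ 2 := by
  classical
  set u : P → ZMod n := fun p => (((p : ℕ) : ZMod n))⁻¹ with hu
  set m : ℝ := (P.card : ℝ) with hmdef
  have hE2 : ∀ c : ℤ, c ≠ 0 → |c| ≤ T →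
      ((univ.filter (fun x : (Fin (k + k) → P) × (Fin (k + k) → P) =>
          (c : ZMod n) * (∑ i, u (x.1 i) - ∑ i, u (x.2 i)) = 0)).card : ℝ)
      ≤ ((k + k).factorial : ℝ) * m ^ (k + k) := by
    intro c hc0 hcT
    have := card_solutions hP hl hX hco hsize c hc0 hcT
      (univ.filter (fun x : (Fin (k + k) → P) × (Fin (k + k) → P) =>
          (c : ZMod n) * (∑ i, u (x.1 i) - ∑ i, u (x.2 i)) = 0))
      (fun x hx => (Finset.mem_filter.1 hx).2)
    rw [hmdef]
    exact_mod_cast this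
  have hE1 : ((univ.filter (fun z : ((Fin k → P) × (Fin k → P)) × ((Fin k → P) × (Fin k → P)) =>
          (∑ i, u (z.1.1 i) - ∑ i, u (z.1.2 i)) = (∑ i, u (z.2.1 i) - ∑ i, u (z.2.2 i)))).card : ℝ)
      ≤ ((k + k).factorial : ℝ) * m ^ (k + k) := by
    have h1 := card_four_le u k
    have h2 := hE2 1 one_ne_zero (by simp; omega)
    simp only [Int.cast_one, one_mul] at h2
    exact le_trans (by exact_mod_cast h1) h2
  have hb := bilinear ψ u hψ (c : ZMod n) k hk _ _ hE1 (hE2 c hc0 hcT)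
  rw [Fintype.card_coe] at hb
  set S : ℝ := ‖∑ p : P, ∑ q : P, ψ ((c : ZMod n) * u p * u q)‖ with hS
  have hS0 : 0 ≤ S := norm_nonneg _
  have hm0 : 0 ≤ m := by positivity
  have h1 : (2 * T * S) ^ (2 * (2 * k) ^ 2) ≤ (m ^ 2) ^ (2 * (2 * k) ^ 2) := by
    rw [mul_pow]
    calc (2 * T : ℝ) ^ (2 * (2 * k) ^ 2) * S ^ (2 * (2 * k) ^ 2)
        ≤ (2 * T : ℝ) ^ (2 * (2 * k) ^ 2) * (m ^ (4 * (2 * k) ^ 2 - 4 * (2 * k)) *
          (((k + k).factorial : ℝ) * m ^ (k + k) *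
            (n * (((k + k).factorial : ℝ) * m ^ (k + k))))) :=
          mul_le_mul_of_nonneg_left hb (by positivity)
      _ = ((n : ℝ) * ((k + k).factorial : ℝ) ^ 2 * (2 * T : ℝ) ^ (2 * (2 * k) ^ 2)) *
          (m ^ (4 * (2 * k) ^ 2 - 4 * (2 * k)) * m ^ (k + k) * m ^ (k + k)) := by ring
      _ ≤ m ^ (2 * (2 * k)) *
          (m ^ (4 * (2 * k) ^ 2 - 4 * (2 * k)) * m ^ (k + k) * m ^ (k + k)) :=
          mul_le_mul_of_nonneg_right hm (by positivity)
      _ = (m ^ 2) ^ (2 * (2 * k) ^ 2) := by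
          rw [← pow_add, ← pow_add, ← pow_add, ← pow_mul]
          congr 1
          have h3 : 4 * (2 * k) ≤ 4 * (2 * k) ^ 2 := by
            apply Nat.mul_le_mul_left
            exact Nat.le_self_pow (by norm_num) _
          omega
  exact le_of_pow_le_pow_left₀ (by positivity) (by positivity) h1

end Pool.Agent.H494R2.ModHyp
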