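import Pool.Agent.H494R2.ModHyp.Params

/-!
Points of the modular hyperbola close to the corner, real exponents.
-/

namespace Pool.Agent.H494R2.ModHyp

theorem exists_corner_point (δ : ℝ) (hδ : 0 < δ) : ∃ η : ℝ, 0 < η ∧ ∃ N : ℕ, ∀ n : ℕ, N ≤ n →
    ∃ a b : ℕ, 0 < a ∧ 0 < b ∧ (a : ℝ) ≤ (n : ℝ) ^ δ ∧ (b : ℝ) ≤ (n : ℝ) ^ (1 - η) ∧
      n ∣ a * b + 1 := by
  set k := ⌈1 / δ⌉₊ + 1 with hk
  obtain ⟨A, B, W₀, hA, hB, hAB, hmain⟩ := main_param k (by omega)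
  have hBR : (0 : ℝ) < B := by exact_mod_cast hB
  refine ⟨1 / (2 * B), by positivity, (W₀ + 1) ^ B + 16 ^ B, ?_⟩
  intro n hn
  have hna : (W₀ + 1) ^ B ≤ n := le_trans (Nat.le_add_right _ _) hn
  have hnb : 16 ^ B ≤ n := le_trans (Nat.le_add_left _ _) hn
  have hn1 : 1 ≤ n := by
    have : 0 < (W₀ + 1) ^ B := by positivity
    omega
  have hn0 : (0 : ℝ) < n := by exact_mod_cast hn1
  have hn1' : (1 : ℝ) ≤ n := by exact_mod_cast hn1
  set x : ℝ := (n : ℝ) ^ ((B : ℝ)⁻¹) with hx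
  have hxB : x ^ B = n := Real.rpow_inv_natCast_pow hn0.le (by omega)
  have hx0 : 0 < x := Real.rpow_pos_of_pos hn0 _
  have hxW : (W₀ + 1 : ℝ) ≤ x := by
    apply le_of_pow_le_pow_left₀ (n := B) (by omega) hx0.le
    rw [hxB]
    exact_mod_cast hna
  have hx16 : (16 : ℝ) ≤ x := by
    apply le_of_pow_le_pow_left₀ (n := B) (by omega) hx0.le
    rw [hxB]
    exact_mod_cast hnb
  set W := ⌊x⌋₊ with hW
  have hWx : (W : ℝ) ≤ x := Nat.floor_le hx0.le
  have hxW1 : x < W + 1 := Nat.lt_floor_add_one x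
  have hW0 : W₀ ≤ W := by
    have : (W₀ : ℝ) < W + 1 := by linarith
    have : W₀ < W + 1 := by exact_mod_cast this
    omega
  have hWn : W ^ B ≤ n := by
    have : (W : ℝ) ^ B ≤ n := by
      rw [← hxB]; exact pow_le_pow_left₀ (by positivity) hWx B
    exact_mod_cast this
  have hnW : n < (W + 1) ^ B := by
    have : (n : ℝ) < ((W : ℝ) + 1) ^ B := by
      rw [← hxB]; exact pow_lt_pow_left₀ hxW1 hx0.le (by omega)
    exact_mod_cast this
  obtain ⟨a, b, ha, hb, haW, hbW, hdvd⟩ := hmain W hW0 n hWn hnW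
  refine ⟨a, b, ha, hb, ?_, ?_, hdvd⟩
  · -- a
    have h1 : (a : ℝ) ≤ x ^ (2 * A) := by
      calc (a : ℝ) ≤ (W : ℝ) ^ (2 * A) := by exact_mod_cast haW
        _ ≤ x ^ (2 * A) := pow_le_pow_left₀ (by positivity) hWx _
    refine h1.trans ?_
    rw [hx, ← Real.rpow_natCast, ← Real.rpow_mul hn0.le]
    apply Real.rpow_le_rpow_of_exponent_le hn1'
    rw [inv_mul_le_iff₀ hBR]
    have h2 : ((4 * k - 1 : ℕ) : ℝ) * A ≤ B := by exact_mod_cast hAB
    have h3 : 2 / δ ≤ ((4 * k - 1 : ℕ) : ℝ) := by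
      have h4 : 1 / δ ≤ ⌈1 / δ⌉₊ := Nat.le_ceil _
      have h5 : 2 * ⌈1 / δ⌉₊ ≤ 4 * k - 1 := by omega
      have h6 : (2 * (⌈1 / δ⌉₊ : ℝ)) ≤ ((4 * k - 1 : ℕ) : ℝ) := by exact_mod_cast h5
      have h7 : 2 / δ = 2 * (1 / δ) := by ring
      linarith
    have hA' : (0 : ℝ) < A := by exact_mod_cast hA
    push_cast
    calc (2 : ℝ) * A = (2 / δ * A) * δ := by field_simp
      _ ≤ (((4 * k - 1 : ℕ) : ℝ) * A) * δ := by gcongr
      _ ≤ B * δ := by gcongr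
  · -- b
    have h1 : (W : ℝ) * b ≤ 2 * n := by exact_mod_cast hbW
    have h2 : x / 2 ≤ W := by linarith
    have h3 : x * b ≤ 4 * n := by
      have hb0 : (0 : ℝ) ≤ b := by positivity
      nlinarith
    set z : ℝ := (n : ℝ) ^ (1 / (2 * (B : ℝ))) with hz
    have hzz : z * z = x := by
      rw [hz, hx, ← Real.rpow_add hn0]
      congr 1
      field_simp
      norm_num
    have hz0 : 0 < z := Real.rpow_pos_of_pos hn0 _
    have hz4 : 4 ≤ z := by nlinarith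
    rw [Real.rpow_sub hn0, Real.rpow_one, ← hz, le_div_iff₀ hz0]
    have h4 : z * (b * z) ≤ z * n := by
      calc z * (b * z) = x * b := by rw [← hzz]; ring
        _ ≤ 4 * n := h3
        _ ≤ z * n := by gcongr
    exact le_of_mul_le_mul_left h4 hz0

end Pool.Agent.H494R2.ModHyp
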