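import Mathlib

/-!
Only diagonal solutions: sums of reciprocals of primes modulo `n`.
-/

namespace Pool.Agent.H494R2.ModHyp

open Finset

theorem prod_erase_cast_eq {l : ℕ} {P : Finset ℕ} (hP : ∀ p ∈ P, p.Prime) (t : Fin l → P) :
    ((∑ i, ∏ r ∈ P.erase (t i : ℕ), r : ℕ) : ℚ)
      = (∏ r ∈ P, (r : ℚ)) * ∑ i, (1 : ℚ) / ((t i : ℕ) : ℚ) := by
  push_cast
  rw [Finset.mul_sum]
  refine Finset.sum_congr rfl fun i _ => ?_
  have h1 : ((t i : ℕ) : ℚ) * ∏ r ∈ P.erase (t i : ℕ), (r : ℚ) = ∏ r ∈ P, (r : ℚ) :=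
    Finset.mul_prod_erase P (fun r : ℕ => (r : ℚ)) (t i).2
  have h2 : ((t i : ℕ) : ℚ) ≠ 0 := by
    have := (hP _ (t i).2).pos
    positivity
  rw [← h1]
  field_simp

theorem sum_erase_mod {l : ℕ} {P : Finset ℕ} (t : Fin l → P) (p : P) :
    ((∑ i, ∏ r ∈ P.erase (t i : ℕ), r : ℕ) : ZMod (p : ℕ))
      = ((univ.filter (fun i => t i = p)).card : ZMod (p : ℕ))
        * ((∏ r ∈ P.erase (p : ℕ), r : ℕ) : ZMod (p : ℕ)) := by
  have h1 : ∀ i, ((∏ r ∈ P.erase (t i : ℕ), r : ℕ) : ZMod (p : ℕ))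
      = if t i = p then ((∏ r ∈ P.erase (p : ℕ), r : ℕ) : ZMod (p : ℕ)) else 0 := by
    intro i
    by_cases h : t i = p
    · rw [if_pos h, h]
    · rw [if_neg h, ZMod.natCast_eq_zero_iff]
      apply Finset.dvd_prod_of_mem
      rw [Finset.mem_erase]
      refine ⟨fun h2 => h (Subtype.ext h2.symm), p.2⟩
  rw [Nat.cast_sum, Finset.sum_congr rfl (fun i _ => h1 i), Finset.sum_ite, Finset.sum_const,
    Finset.sum_const_zero, add_zero, nsmul_eq_mul]

theorem counts_eq {l : ℕ} {P : Finset ℕ} (hP : ∀ p ∈ P, p.Prime) (hl : ∀ p ∈ P, l < p)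
    (t s : Fin l → P)
    (h : ∑ i, (1 : ℚ) / ((t i : ℕ) : ℚ) = ∑ i, (1 : ℚ) / ((s i : ℕ) : ℚ)) (p : P) :
    (univ.filter (fun i => t i = p)).card = (univ.filter (fun i => s i = p)).card := by
  have h1 : (∑ i, ∏ r ∈ P.erase (t i : ℕ), r : ℕ) = ∑ i, ∏ r ∈ P.erase (s i : ℕ), r := by
    have : ((∑ i, ∏ r ∈ P.erase (t i : ℕ), r : ℕ) : ℚ)
        = ((∑ i, ∏ r ∈ P.erase (s i : ℕ), r : ℕ) : ℚ) := by
      rw [prod_erase_cast_eq hP, prod_erase_cast_eq hP, h]
    exact_mod_cast this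
  have h2 := congrArg (Nat.cast : ℕ → ZMod (p : ℕ)) h1
  rw [sum_erase_mod, sum_erase_mod] at h2
  haveI : Fact (p : ℕ).Prime := ⟨hP _ p.2⟩
  have h3 : ((∏ r ∈ P.erase (p : ℕ), r : ℕ) : ZMod (p : ℕ)) ≠ 0 := by
    rw [Ne, ZMod.natCast_eq_zero_iff, Prime.dvd_finset_prod_iff (hP _ p.2).prime]
    rintro ⟨r, hr, hpr⟩
    rw [Finset.mem_erase] at hr
    exact hr.1 ((Nat.prime_dvd_prime_iff_eq (hP _ p.2) (hP _ hr.2)).1 hpr).symm
  have h4 := mul_right_cancel₀ h3 h2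
  rw [ZMod.natCast_eq_natCast_iff] at h4
  have hc : ∀ t : Fin l → P, (univ.filter (fun i => t i = p)).card < (p : ℕ) := fun t =>
    lt_of_le_of_lt ((Finset.card_le_univ _).trans (by simp)) (hl _ p.2)
  exact Nat.ModEq.eq_of_lt_of_lt h4 (hc t) (hc s)

theorem exists_perm {l : ℕ} {ι : Type*} [DecidableEq ι] (t s : Fin l → ι)
    (h : ∀ p, (univ.filter (fun i => t i = p)).card = (univ.filter (fun i => s i = p)).card) :
    ∃ π : Equiv.Perm (Fin l), t = s ∘ π := by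
  have h1 : ∀ p, Nonempty ({i // t i = p} ≃ {i // s i = p}) := by
    intro p
    rw [← Fintype.card_eq, Fintype.card_subtype, Fintype.card_subtype]
    exact h p
  have e : ∀ p, ({i // t i = p} ≃ {i // s i = p}) := fun p => (h1 p).some
  refine ⟨(Equiv.sigmaFiberEquiv t).symm.trans
    ((Equiv.sigmaCongrRight e).trans (Equiv.sigmaFiberEquiv s)), ?_⟩
  funext i
  simp only [Function.comp_apply, Equiv.trans_apply, Equiv.sigmaFiberEquiv, Equiv.coe_fn_mk,
    Equiv.coe_fn_symm_mk, Equiv.sigmaCongrRight_apply, Sigma.map]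
  exact ((e (t i) ⟨i, rfl⟩).2).symm

/-- The number of pairs of tuples which are permutations of each other. -/
theorem card_pairs_le {l : ℕ} {ι : Type*} [Fintype ι] [DecidableEq ι]
    (A : Finset ((Fin l → ι) × (Fin l → ι)))
    (h : ∀ x ∈ A, ∃ π : Equiv.Perm (Fin l), x.1 = x.2 ∘ π) :
    A.card ≤ l.factorial * (Fintype.card ι) ^ l := by
  have h1 : A ⊆ (univ : Finset (Equiv.Perm (Fin l) × (Fin l → ι))).image
      (fun y => (y.2 ∘ y.1, y.2)) := by
    intro x hx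
    obtain ⟨π, hπ⟩ := h x hx
    rw [Finset.mem_image]
    refine ⟨(π, x.2), Finset.mem_univ _, ?_⟩
    rw [Prod.ext_iff]
    exact ⟨hπ.symm, rfl⟩
  refine (Finset.card_le_card h1).trans (Finset.card_image_le.trans ?_)
  rw [Finset.card_univ, Fintype.card_prod, Fintype.card_perm, Fintype.card_fun, Fintype.card_fin]

/-- From a congruence to a rational identity. -/
theorem rat_eq_of_zmod {l n X T : ℕ} {P : Finset ℕ}
    (hP : ∀ p ∈ P, p.Prime) (hX : ∀ p ∈ P, p ≤ X)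
    (hco : ∀ p ∈ P, Nat.Coprime p n) (hsize : T * (l * X ^ (2 * l - 1)) < n)
    (t s : Fin l → P) (c : ℤ) (hc0 : c ≠ 0) (hcT : |c| ≤ T)
    (h : (c : ZMod n) * (∑ i, (((t i : ℕ) : ZMod n))⁻¹ - ∑ i, (((s i : ℕ) : ZMod n))⁻¹) = 0) :
    ∑ i, (1 : ℚ) / ((t i : ℕ) : ℚ) = ∑ i, (1 : ℚ) / ((s i : ℕ) : ℚ) := by
  rcases Nat.eq_zero_or_pos l with hl | hl
  · subst hl; simp
  -- integers
  set A : (Fin l → P) → ℕ := fun t => ∑ i, ∏ j ∈ univ.erase i, (t j : ℕ) with hA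
  set Q : (Fin l → P) → ℕ := fun t => ∏ j, (t j : ℕ) with hQ
  have hAle : ∀ t : Fin l → P, A t ≤ l * X ^ (l - 1) := by
    intro t
    calc A t ≤ ∑ _i : Fin l, X ^ (l - 1) := by
          refine Finset.sum_le_sum fun i _ => ?_
          have := Finset.prod_le_pow_card (univ.erase i) (fun j => (t j : ℕ)) X
            (fun j _ => hX _ (t j).2)
          rwa [Finset.card_erase_of_mem (Finset.mem_univ i), Finset.card_univ,
            Fintype.card_fin] at this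
      _ = l * X ^ (l - 1) := by simp
  have hQle : ∀ t : Fin l → P, Q t ≤ X ^ l := by
    intro t
    have := Finset.prod_le_pow_card (univ : Finset (Fin l)) (fun j => (t j : ℕ)) X
      (fun j _ => hX _ (t j).2)
    rwa [Finset.card_univ, Fintype.card_fin] at this
  have hAQ : ∀ t s : Fin l → P, A t * Q s ≤ l * X ^ (2 * l - 1) := by
    intro t s
    calc A t * Q s ≤ (l * X ^ (l - 1)) * X ^ l := Nat.mul_le_mul (hAle t) (hQle s)
      _ = l * X ^ (2 * l - 1) := by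
          rw [mul_assoc, ← pow_add]; congr 2; omega
  have hinv : ∀ t : Fin l → P, (∑ i, (((t i : ℕ) : ZMod n))⁻¹) * (Q t : ZMod n)
      = (A t : ZMod n) := by
    intro t
    simp only [hA, hQ]
    push_cast
    rw [Finset.sum_mul]
    refine Finset.sum_congr rfl fun i _ => ?_
    rw [← Finset.mul_prod_erase univ (fun j => ((t j : ℕ) : ZMod n)) (Finset.mem_univ i),
      ← mul_assoc, mul_comm (((t i : ℕ) : ZMod n))⁻¹,
      ZMod.coe_mul_inv_eq_one _ (hco _ (t i).2), one_mul]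
  have hD : ((c * ((A t : ℤ) * Q s - A s * Q t) : ℤ) : ZMod n) = 0 := by
    have h2 : (c : ZMod n) * (∑ i, (((t i : ℕ) : ZMod n))⁻¹ - ∑ i, (((s i : ℕ) : ZMod n))⁻¹)
        * ((Q t : ZMod n) * (Q s : ZMod n)) = 0 := by rw [h, zero_mul]
    push_cast
    rw [← hinv t, ← hinv s, ← h2]
    ring
  rw [ZMod.intCast_zmod_eq_zero_iff_dvd] at hD
  have hbound : |c * ((A t : ℤ) * Q s - A s * Q t)| < n := by
    rw [abs_mul]
    have h3 : |((A t : ℤ) * Q s - A s * Q t)| ≤ (l * X ^ (2 * l - 1) : ℕ) := by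
      rw [abs_le]
      have ha := hAQ t s
      have hb := hAQ s t
      have ha' : ((A t : ℤ) * Q s) ≤ (l * X ^ (2 * l - 1) : ℕ) := by exact_mod_cast ha
      have hb' : ((A s : ℤ) * Q t) ≤ (l * X ^ (2 * l - 1) : ℕ) := by exact_mod_cast hb
      have ha0 : (0 : ℤ) ≤ (A t : ℤ) * Q s := by positivity
      have hb0 : (0 : ℤ) ≤ (A s : ℤ) * Q t := by positivity
      constructor <;> linarith
    calc |c| * |((A t : ℤ) * Q s - A s * Q t)| ≤ (T : ℤ) * (l * X ^ (2 * l - 1) : ℕ) := by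
          apply mul_le_mul hcT h3 (abs_nonneg _) (by positivity)
      _ < n := by exact_mod_cast hsize
  have h0 : c * ((A t : ℤ) * Q s - A s * Q t) = 0 := Int.eq_zero_of_abs_lt_dvd hD hbound
  have h4 : (A t : ℤ) * Q s = A s * Q t := by
    have := (mul_eq_zero.1 h0).resolve_left hc0
    linarith
  have h4' : (A t : ℚ) * Q s = A s * Q t := by exact_mod_cast h4
  have hrat : ∀ t : Fin l → P, (∑ i, (1 : ℚ) / ((t i : ℕ) : ℚ)) = (A t : ℚ) / Q t := by
    intro t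
    have hQ0 : (Q t : ℚ) ≠ 0 := by
      simp only [hQ]
      push_cast
      apply Finset.prod_ne_zero_iff.2
      intro j _
      have := (hP _ (t j).2).pos
      positivity
    rw [eq_div_iff hQ0]
    simp only [hA, hQ]
    push_cast
    rw [Finset.sum_mul]
    refine Finset.sum_congr rfl fun i _ => ?_
    have hti : ((t i : ℕ) : ℚ) ≠ 0 := by
      have := (hP _ (t i).2).pos
      positivity
    rw [← Finset.mul_prod_erase univ (fun j => ((t j : ℕ) : ℚ)) (Finset.mem_univ i)]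
    field_simp
  have hQ0 : ∀ t : Fin l → P, (Q t : ℚ) ≠ 0 := by
    intro t
    simp only [hQ]
    push_cast
    apply Finset.prod_ne_zero_iff.2
    intro j _
    have := (hP _ (t j).2).pos
    positivity
  rw [hrat t, hrat s, div_eq_div_iff (hQ0 t) (hQ0 s)]
  exact h4'

/-- The count of solutions. -/
theorem card_solutions {l n X T : ℕ} {P : Finset ℕ}
    (hP : ∀ p ∈ P, p.Prime) (hl : ∀ p ∈ P, l < p) (hX : ∀ p ∈ P, p ≤ X)
    (hco : ∀ p ∈ P, Nat.Coprime p n) (hsize : T * (l * X ^ (2 * l - 1)) < n)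
    (c : ℤ) (hc0 : c ≠ 0) (hcT : |c| ≤ T)
    (A : Finset ((Fin l → P) × (Fin l → P)))
    (h : ∀ x ∈ A, (c : ZMod n) * (∑ i, (((x.1 i : ℕ) : ZMod n))⁻¹
      - ∑ i, (((x.2 i : ℕ) : ZMod n))⁻¹) = 0) :
    A.card ≤ l.factorial * P.card ^ l := by
  classical
  have := card_pairs_le A (fun x hx => exists_perm x.1 x.2 (fun p =>
    counts_eq hP hl x.1 x.2 (rat_eq_of_zmod hP hX hco hsize x.1 x.2 c hc0 hcT (h x hx)) p))
  rwa [Fintype.card_coe] at this

end Pool.Agent.H494R2.ModHyp
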