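import Mathlib

/-!
A point with small residue, from bounds for exponential sums with small frequencies.
-/

namespace Pool.Agent.H494R2.ModHyp

open Finset

/-- Lower bound for the distance of a point on the circle to `1`. -/
theorem norm_exp_sub_one_ge (y r : ℝ) (hr : 0 ≤ r) (h1 : r ≤ y) (h2 : y ≤ 1 - r) :
    4 * r ≤ ‖Complex.exp (Complex.I * ((2 * Real.pi * y : ℝ) : ℂ)) - 1‖ := by
  rw [Complex.norm_exp_I_mul_ofReal_sub_one, norm_mul, Real.norm_eq_abs, Real.norm_eq_abs,
    abs_of_pos (by norm_num : (0 : ℝ) < 2)]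
  have hpi := Real.pi_pos
  have e : 2 * Real.pi * y / 2 = Real.pi * y := by ring
  rw [e]
  have key : 2 * r ≤ Real.sin (Real.pi * y) := by
    rcases le_total y (1 / 2) with h | h
    · have h3 := Real.mul_le_sin (x := Real.pi * y) (mul_nonneg hpi.le (by linarith))
        (by nlinarith)
      have h4 : 2 / Real.pi * (Real.pi * y) = 2 * y := by field_simp
      linarith
    · have h3 := Real.mul_le_sin (x := Real.pi * (1 - y))
        (mul_nonneg hpi.le (by linarith)) (by nlinarith)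
      have h4 : 2 / Real.pi * (Real.pi * (1 - y)) = 2 * (1 - y) := by field_simp
      have h5 : Real.sin (Real.pi * (1 - y)) = Real.sin (Real.pi * y) := by
        rw [mul_sub, mul_one, Real.sin_pi_sub]
      linarith
  have := le_abs_self (Real.sin (Real.pi * y))
  linarith

/-- Bound for a geometric sum on the circle. -/
theorem geom_bound (z : ℂ) (hz : ‖z‖ = 1) (r : ℝ) (hr : 0 < r) (h : 4 * r ≤ ‖z - 1‖) (T : ℕ) :
    ‖∑ j ∈ range T, z ^ j‖ ≤ 1 / (2 * r) := by
  have h1 : (∑ j ∈ range T, z ^ j) * (z - 1) = z ^ T - 1 := geom_sum_mul z T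
  have h2 : ‖∑ j ∈ range T, z ^ j‖ * ‖z - 1‖ ≤ 2 := by
    rw [← norm_mul, h1]
    calc ‖z ^ T - 1‖ ≤ ‖z ^ T‖ + ‖(1 : ℂ)‖ := norm_sub_le _ _
      _ = 2 := by rw [norm_pow, hz, one_pow, norm_one]; norm_num
  rw [le_div_iff₀ (by positivity)]
  have h3 := norm_nonneg (∑ j ∈ range T, z ^ j)
  nlinarith

/-- Existence of a point with small residue. -/
theorem exists_small {n T H : ℕ} [NeZero n] {ι : Type*} [Fintype ι] [Nonempty ι]
    (w : ι → ZMod n) (hT : 0 < T) (hHn : H < n) (hH : 2 * (n : ℝ) ^ 2 < T * (H : ℝ) ^ 2)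
    (hS : ∀ c : ℤ, c ≠ 0 → |c| ≤ T →
      2 * T * ‖∑ x, ZMod.stdAddChar ((c : ZMod n) * w x)‖ ≤ (Fintype.card ι : ℝ)) :
    ∃ x, (w x).val ≤ H := by
  by_contra hcon
  push Not at hcon
  have hn0 : 0 < n := Nat.pos_of_ne_zero (NeZero.ne n)
  have hnR : (0 : ℝ) < n := by exact_mod_cast hn0
  have hH0 : 0 < (H : ℝ) := by
    rcases Nat.eq_zero_or_pos H with h | h
    · subst h; simp at hH; nlinarith [sq_nonneg (n : ℝ)]
    · exact_mod_cast h
  set m : ℝ := (Fintype.card ι : ℝ) with hm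
  have hmpos : 0 < m := by rw [hm]; exact_mod_cast Fintype.card_pos
  set r : ℝ := H / (2 * n) with hr
  have hrpos : 0 < r := by positivity
  set y : ι → ℝ := fun x => (((w x).val : ℝ) - H / 2) / n with hy
  set z : ι → ℂ := fun x => Complex.exp (Complex.I * ((2 * Real.pi * y x : ℝ) : ℂ)) with hz
  have hznorm : ∀ x, ‖z x‖ = 1 := by
    intro x
    simp only [hz]
    rw [mul_comm, Complex.norm_exp_ofReal_mul_I]
  have hy1 : ∀ x, r ≤ y x := by
    intro x
    simp only [hr, hy]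
    rw [div_le_div_iff₀ (by positivity) hnR]
    have h1 : (H : ℝ) ≤ (w x).val := by exact_mod_cast (hcon x).le
    nlinarith
  have hy2 : ∀ x, y x ≤ 1 - r := by
    intro x
    simp only [hr, hy]
    have h1 : ((w x).val : ℝ) ≤ n := by exact_mod_cast (ZMod.val_lt (w x)).le
    rw [div_le_iff₀ hnR, sub_mul, div_mul_eq_mul_div]
    have : (H : ℝ) * n / (2 * n) = H / 2 := by field_simp
    rw [this]
    linarith
  have hV : ∀ x, ‖∑ j ∈ range T, z x ^ j‖ ≤ n / H := by
    intro x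
    have := geom_bound (z x) (hznorm x) r hrpos (norm_exp_sub_one_ge (y x) r hrpos.le (hy1 x) (hy2 x)) T
    refine this.trans (le_of_eq ?_)
    rw [hr]
    field_simp
  -- the character values
  set ρ : ℂ := Complex.exp (Complex.I * ((-(Real.pi * H / n) : ℝ) : ℂ)) with hρ
  have hρnorm : ‖ρ‖ = 1 := by
    rw [hρ, mul_comm, Complex.norm_exp_ofReal_mul_I]
  have hzψ : ∀ x, z x = ZMod.stdAddChar (w x) * ρ := by
    intro x
    rw [ZMod.stdAddChar_apply, ZMod.toCircle_apply, hρ, ← Complex.exp_add]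
    simp only [hz, hy]
    congr 1
    push_cast
    field_simp
    ring
  -- expansion of the square
  have hconjz : ∀ x, z x * (starRingEnd ℂ) (z x) = 1 := by
    intro x
    rw [Complex.mul_conj', hznorm]; norm_num
  have hexp : ((∑ x, ‖∑ j ∈ range T, z x ^ j‖ ^ 2 : ℝ) : ℂ)
      = ∑ i ∈ range T, ∑ j ∈ range T, ∑ x, z x ^ i * (starRingEnd ℂ) (z x) ^ j := by
    rw [Complex.ofReal_sum]
    have : ∀ x, ((‖∑ j ∈ range T, z x ^ j‖ ^ 2 : ℝ) : ℂ)
        = ∑ i ∈ range T, ∑ j ∈ range T, z x ^ i * (starRingEnd ℂ) (z x) ^ j := by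
      intro x
      push_cast
      rw [← Complex.mul_conj', map_sum, Finset.sum_mul_sum]
      simp
    rw [Finset.sum_congr rfl fun x _ => this x, Finset.sum_comm]
    refine Finset.sum_congr rfl fun i _ => ?_
    rw [Finset.sum_comm]
  have hdiag : ∀ i, ∑ x, z x ^ i * (starRingEnd ℂ) (z x) ^ i = (m : ℂ) := by
    intro i
    rw [Finset.sum_congr rfl (g := fun _ => (1 : ℂ))]
    · rw [Finset.sum_const, Finset.card_univ, nsmul_eq_mul, mul_one, hm]
      push_cast
      rfl
    · intro x _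
      rw [← mul_pow, hconjz, one_pow]
  have hoff : ∀ i ∈ range T, ∀ j ∈ range T, i ≠ j →
      ‖∑ x, z x ^ i * (starRingEnd ℂ) (z x) ^ j‖ ≤ m / (2 * T) := by
    intro i hi j hj hij
    have h1 : ∀ x, z x ^ i * (starRingEnd ℂ) (z x) ^ j
        = (ρ ^ i * (starRingEnd ℂ) ρ ^ j) * ZMod.stdAddChar ((((i : ℤ) - j : ℤ) : ZMod n) * w x) := by
      intro x
      rw [hzψ x]
      have h2 : ZMod.stdAddChar ((((i : ℤ) - j : ℤ) : ZMod n) * w x)
          = (ZMod.stdAddChar (w x) : ℂ) ^ i * (starRingEnd ℂ) (ZMod.stdAddChar (w x)) ^ j := by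
        rw [← AddChar.map_neg_eq_conj, ← AddChar.map_nsmul_eq_pow, ← AddChar.map_nsmul_eq_pow,
          ← AddChar.map_add_eq_mul]
        congr 1
        push_cast
        rw [nsmul_eq_mul, nsmul_eq_mul]
        ring
      rw [h2, map_mul, mul_pow, mul_pow]
      ring
    rw [Finset.sum_congr rfl fun x _ => h1 x, ← Finset.mul_sum, norm_mul, norm_mul, norm_pow,
      norm_pow, RCLike.norm_conj, hρnorm, one_pow, one_pow, one_mul, one_mul]
    have h3 := hS ((i : ℤ) - j) (by
      intro h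
      apply hij
      have := sub_eq_zero.1 h
      exact_mod_cast this) (by
      rw [Finset.mem_range] at hi hj
      rw [abs_le]
      constructor <;> omega)
    rw [le_div_iff₀ (by positivity)]
    linarith
  -- combine
  have hup : ∑ x, ‖∑ j ∈ range T, z x ^ j‖ ^ 2 ≤ m * (n / H) ^ 2 := by
    calc ∑ x, ‖∑ j ∈ range T, z x ^ j‖ ^ 2 ≤ ∑ _x : ι, ((n : ℝ) / H) ^ 2 :=
          Finset.sum_le_sum fun x _ => pow_le_pow_left₀ (norm_nonneg _) (hV x) 2
      _ = m * (n / H) ^ 2 := by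
          rw [Finset.sum_const, Finset.card_univ, nsmul_eq_mul]
  have hlow : T * m ≤ ∑ x, ‖∑ j ∈ range T, z x ^ j‖ ^ 2 + T * (T * (m / (2 * T))) := by
    have h1 : ((T * m : ℝ) : ℂ) = ((∑ x, ‖∑ j ∈ range T, z x ^ j‖ ^ 2 : ℝ) : ℂ)
        - ∑ i ∈ range T, ∑ j ∈ range T, (if i = j then 0
            else ∑ x, z x ^ i * (starRingEnd ℂ) (z x) ^ j) := by
      rw [hexp, ← Finset.sum_sub_distrib]
      have h2 : ∀ i ∈ range T, (∑ j ∈ range T, ∑ x, z x ^ i * (starRingEnd ℂ) (z x) ^ j)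
          - ∑ j ∈ range T, (if i = j then 0
            else ∑ x, z x ^ i * (starRingEnd ℂ) (z x) ^ j) = (m : ℂ) := by
        intro i hi
        rw [← Finset.sum_sub_distrib, Finset.sum_eq_single i]
        · rw [if_pos rfl, sub_zero, hdiag]
        · intro j _ hj
          rw [if_neg (Ne.symm hj), sub_self]
        · intro h; exact absurd hi h
      rw [Finset.sum_congr rfl h2, Finset.sum_const, Finset.card_range, nsmul_eq_mul]
      push_cast
      rfl
    have h3 : (T * m : ℝ) = ‖((T * m : ℝ) : ℂ)‖ := by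
      rw [Complex.norm_real, Real.norm_of_nonneg]; positivity
    rw [h3, h1]
    refine (norm_sub_le _ _).trans ?_
    have h4 : ‖((∑ x, ‖∑ j ∈ range T, z x ^ j‖ ^ 2 : ℝ) : ℂ)‖
        = ∑ x, ‖∑ j ∈ range T, z x ^ j‖ ^ 2 := by
      rw [Complex.norm_real, Real.norm_of_nonneg]; positivity
    rw [h4]
    gcongr
    calc ‖∑ i ∈ range T, ∑ j ∈ range T, (if i = j then 0
            else ∑ x, z x ^ i * (starRingEnd ℂ) (z x) ^ j)‖
        ≤ ∑ i ∈ range T, ∑ j ∈ range T, (m / (2 * T)) := by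
          refine (norm_sum_le _ _).trans (Finset.sum_le_sum fun i hi => ?_)
          refine (norm_sum_le _ _).trans (Finset.sum_le_sum fun j hj => ?_)
          split_ifs with hij
          · rw [norm_zero]; positivity
          · exact hoff i hi j hj hij
      _ = T * (T * (m / (2 * T))) := by
          simp
  have hT' : (0 : ℝ) < T := by exact_mod_cast hT
  have h5 : (T : ℝ) * (T * (m / (2 * T))) = T * m / 2 := by field_simp
  rw [h5] at hlow
  have h6 : (T : ℝ) * m / 2 ≤ m * (n / H) ^ 2 := by linarith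
  have h7 : (T : ℝ) / 2 ≤ (n / H) ^ 2 := by
    have : m * (T / 2) ≤ m * (n / H) ^ 2 := by linarith
    exact le_of_mul_le_mul_left this hmpos
  rw [div_pow, le_div_iff₀ (by positivity)] at h7
  linarith

end Pool.Agent.H494R2.ModHyp
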