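import Pool.Agent.H494R2.ModHyp.Bound
import Pool.Agent.H494R2.ModHyp.Fejer

/-!
Choice of parameters: points of the modular hyperbola close to the corner.
-/

namespace Pool.Agent.H494R2.ModHyp

open Finset

theorem two_pow_card_primeFactors_le (n : ℕ) (hn : n ≠ 0) : 2 ^ n.primeFactors.card ≤ n := by
  calc 2 ^ n.primeFactors.card = ∏ _p ∈ n.primeFactors, 2 := by simp
    _ ≤ ∏ p ∈ n.primeFactors, p :=
        Finset.prod_le_prod' fun p hp => (Nat.prime_of_mem_primeFactors hp).two_le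
    _ ≤ n := Nat.le_of_dvd (Nat.pos_of_ne_zero hn) (Nat.prod_primeFactors_dvd n)

/-- The primes used. -/
def PS (n X K : ℕ) : Finset ℕ := (range (X + 1)).filter (fun p => p.Prime ∧ K < p ∧ ¬ p ∣ n)

theorem primeCounting_le_PS (n X K : ℕ) (h0 : n ≠ 0) :
    Nat.primeCounting X ≤ (PS n X K).card + (K + 1) + n.primeFactors.card := by
  · rw [← Nat.primesLE_card_eq_primeCounting]
    have h1 : Nat.primesLE X ⊆ (PS n X K ∪ range (K + 1)) ∪ n.primeFactors := by
      intro p hp
      rw [Nat.mem_primesLE] at hp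
      simp only [PS, Finset.mem_union, Finset.mem_filter, Finset.mem_range, Nat.mem_primeFactors]
      by_cases hK : K < p
      · by_cases hd : p ∣ n
        · exact Or.inr ⟨hp.2, hd, h0⟩
        · exact Or.inl (Or.inl ⟨by omega, hp.2, hK, hd⟩)
      · exact Or.inl (Or.inr (by omega))
    have h2 := (Finset.card_le_card h1).trans (Finset.card_union_le _ _)
    have h3 := Finset.card_union_le (PS n X K) (range (K + 1))
    rw [Finset.card_range] at h3
    omega

/-- Lower bound for the number of primes up to a power. -/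
theorem primeCounting_pow_ge (A W : ℕ) (hA : 4 ≤ A) (hW : 64 * A ^ 2 ≤ W) :
    2 * W ^ (A - 1) ≤ Nat.primeCounting (W ^ A) := by
  have hW1 : 1024 ≤ W := by nlinarith
  have hX16 : 16 ≤ W ^ A := by
    calc 16 ≤ W ^ 1 := by rw [pow_one]; omega
      _ ≤ W ^ A := Nat.pow_le_pow_right (by omega) (by omega)
  have hpi := Chebyshev.pi_ge (W ^ A)
  have hX16' : (16 : ℝ) ≤ ((W ^ A : ℕ) : ℝ) := by exact_mod_cast hX16
  set X : ℝ := ((W ^ A : ℕ) : ℝ) with hX
  have hlogX : 0 < Real.log X := Real.log_pos (by linarith)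
  rw [div_le_iff₀ hlogX] at hpi
  have hl2 := Real.log_two_gt_d9
  have hl2' := Real.log_two_lt_d9
  have h1 : Real.log (X + 1) ≤ X * (19 / 100) := by
    have h2 : Real.log (X + 1) = Real.log ((X + 1) / 32) + 5 * Real.log 2 := by
      have h3 : (X + 1) = ((X + 1) / 32) * 2 ^ 5 := by ring
      conv_lhs => rw [h3]
      rw [Real.log_mul (by positivity) (by norm_num), Real.log_pow]
      norm_num
    have h4 := Real.log_le_sub_one_of_pos (show 0 < (X + 1) / 32 by positivity)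
    rw [h2]
    linarith
  have h5 : X / 2 ≤ (Nat.primeCounting (W ^ A) : ℝ) * Real.log X := by nlinarith
  have hWR : (0 : ℝ) < W := by positivity
  have h6 : Real.log X ≤ A * (2 * Real.sqrt W) := by
    rw [hX]
    push_cast
    rw [Real.log_pow]
    apply mul_le_mul_of_nonneg_left _ (by positivity)
    have h7 : Real.log W = 2 * Real.log (Real.sqrt W) := by
      rw [Real.log_sqrt hWR.le]; ring
    have h8 := Real.log_le_sub_one_of_pos (Real.sqrt_pos.2 hWR)
    rw [h7]
    linarith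
  have h9 : X / 2 ≤ (Nat.primeCounting (W ^ A) : ℝ) * (A * (2 * Real.sqrt W)) :=
    h5.trans (mul_le_mul_of_nonneg_left h6 (by positivity))
  have hXW : X = (W : ℝ) ^ (A - 1) * (Real.sqrt W * Real.sqrt W) := by
    rw [Real.mul_self_sqrt hWR.le, hX, ← pow_succ]
    push_cast
    congr 1
    omega
  have hs : 8 * (A : ℝ) ≤ Real.sqrt W := by
    apply Real.le_sqrt_of_sq_le
    have : (64 * A ^ 2 : ℝ) ≤ W := by exact_mod_cast hW
    nlinarith
  have hA0 : (0 : ℝ) < A := by positivity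
  have hsp : 0 < Real.sqrt W := Real.sqrt_pos.2 hWR
  have h10 : (W : ℝ) ^ (A - 1) * Real.sqrt W ≤ (Nat.primeCounting (W ^ A) : ℝ) * (4 * A) := by
    rw [hXW] at h9
    have : Real.sqrt W * ((W : ℝ) ^ (A - 1) * Real.sqrt W)
        ≤ Real.sqrt W * ((Nat.primeCounting (W ^ A) : ℝ) * (4 * A)) := by nlinarith
    exact le_of_mul_le_mul_left this hsp
  have h11 : (W : ℝ) ^ (A - 1) * (8 * A) ≤ (W : ℝ) ^ (A - 1) * Real.sqrt W :=
    mul_le_mul_of_nonneg_left hs (by positivity)
  have h12 : 2 * (W : ℝ) ^ (A - 1) ≤ (Nat.primeCounting (W ^ A) : ℝ) := by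
    have : (4 * A) * (2 * (W : ℝ) ^ (A - 1)) ≤ (4 * A) * (Nat.primeCounting (W ^ A) : ℝ) := by
      linarith
    exact le_of_mul_le_mul_left this (by positivity)
  exact_mod_cast h12

/-- The main theorem with explicit parameters. -/
theorem main_param (k : ℕ) (hk : 0 < k) :
    ∃ A B W₀ : ℕ, 0 < A ∧ 0 < B ∧ (4 * k - 1) * A ≤ B ∧
    ∀ W : ℕ, W₀ ≤ W → ∀ n : ℕ, W ^ B ≤ n → n < (W + 1) ^ B →
      ∃ a b : ℕ, 0 < a ∧ 0 < b ∧ a ≤ W ^ (2 * A) ∧ W * b ≤ 2 * n ∧ n ∣ a * b + 1 := by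
  set K := k + k with hK
  set A := 4 * K ^ 2 + 2 * K + 4 with hA
  set B := A * (2 * K - 1) + 3 with hB
  set C := 2 ^ B * K.factorial ^ 2 * 2 ^ (2 * K ^ 2) with hC
  refine ⟨A, B, C + 64 * A ^ 2 + K + 2 + B, by omega, by omega, ?_, ?_⟩
  · have : 4 * k - 1 = 2 * K - 1 := by omega
    rw [this, hB, mul_comm]
    omega
  intro W hW n hWn hnW
  have hA2 : 64 * A ^ 2 ≤ W := by omega
  have hWpos : 0 < W := by omega
  have hWK : K + 2 ≤ W := by omega
  have hWB : B ≤ W := by omega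
  have hWC : C ≤ W := by
    have : 0 ≤ 64 * A ^ 2 := Nat.zero_le _
    omega
  have hA4 : 4 ≤ A := by omega
  have hBA : A ≤ B := by
    rw [hB]
    have : A * 1 ≤ A * (2 * K - 1) := Nat.mul_le_mul_left _ (by omega)
    omega
  have hn1 : 1 < n := by
    calc 1 < W ^ 1 := by rw [pow_one]; omega
      _ ≤ W ^ B := Nat.pow_le_pow_right hWpos (by omega)
      _ ≤ n := hWn
  haveI : NeZero n := ⟨by omega⟩
  set P := PS n (W ^ A) K with hP
  -- size of P
  have hω : n.primeFactors.card ≤ B * W := by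
    have h1 := two_pow_card_primeFactors_le n (by omega)
    have h2 : W + 1 ≤ 2 ^ W := Nat.lt_two_pow_self
    have h3 : 2 ^ n.primeFactors.card < 2 ^ (W * B) := by
      calc 2 ^ n.primeFactors.card ≤ n := h1
        _ < (W + 1) ^ B := hnW
        _ ≤ (2 ^ W) ^ B := Nat.pow_le_pow_left h2 B
        _ = 2 ^ (W * B) := by rw [← pow_mul]
    have h4 := (Nat.pow_lt_pow_iff_right (by norm_num : 1 < 2)).1 h3
    rw [mul_comm] at h4
    exact h4.le
  have hcard : W ^ (A - 1) ≤ P.card := by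
    have h1 := primeCounting_le_PS n (W ^ A) K (by omega)
    have h2 := primeCounting_pow_ge A W hA4 hA2
    have h3 : K + 1 + B * W ≤ W ^ (A - 1) := by
      calc K + 1 + B * W ≤ W * 1 + W * W := by
            have : B * W ≤ W * W := Nat.mul_le_mul_right _ hWB
            omega
        _ ≤ W * W + W * W := by
            have : W * 1 ≤ W * W := Nat.mul_le_mul_left _ hWpos
            omega
        _ = 2 * W ^ 2 := by ring
        _ ≤ W * W ^ 2 := Nat.mul_le_mul_right _ (by omega)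
        _ = W ^ 3 := by ring
        _ ≤ W ^ (A - 1) := Nat.pow_le_pow_right hWpos (by omega)
    rw [← hP] at h1
    omega
  have hPprime : ∀ p ∈ P, p.Prime := fun p hp => ((Finset.mem_filter.1 hp).2).1
  have hPl : ∀ p ∈ P, k + k < p := fun p hp => ((Finset.mem_filter.1 hp).2).2.1
  have hPX : ∀ p ∈ P, p ≤ W ^ A := fun p hp => by
    have := (Finset.mem_filter.1 hp).1
    rw [Finset.mem_range] at this
    omega
  have hPco : ∀ p ∈ P, Nat.Coprime p n := fun p hp =>
    (Nat.Prime.coprime_iff_not_dvd (hPprime p hp)).2 ((Finset.mem_filter.1 hp).2).2.2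
  have hsize : W ^ 2 * ((k + k) * (W ^ A) ^ (2 * (k + k) - 1)) < n := by
    calc W ^ 2 * ((k + k) * (W ^ A) ^ (2 * (k + k) - 1))
        = K * (W ^ 2 * W ^ (A * (2 * K - 1))) := by rw [← pow_mul]; ring
      _ < W * (W ^ 2 * W ^ (A * (2 * K - 1))) := by
          apply Nat.mul_lt_mul_of_pos_right (by omega) (by positivity)
      _ = W ^ B := by rw [hB]; ring
      _ ≤ n := hWn
  have hm : (n : ℝ) * ((k + k).factorial : ℝ) ^ 2 * (2 * ((W ^ 2 : ℕ) : ℝ)) ^ (2 * (2 * k) ^ 2)
      ≤ (P.card : ℝ) ^ (2 * (2 * k)) := by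
    have h1 : n * K.factorial ^ 2 * (2 * W ^ 2) ^ (2 * K ^ 2) ≤ P.card ^ (2 * K) := by
      calc n * K.factorial ^ 2 * (2 * W ^ 2) ^ (2 * K ^ 2)
          ≤ (2 * W) ^ B * K.factorial ^ 2 * (2 * W ^ 2) ^ (2 * K ^ 2) := by
            apply Nat.mul_le_mul_right
            apply Nat.mul_le_mul_right
            exact hnW.le.trans (Nat.pow_le_pow_left (by omega) B)
        _ = C * (W ^ B * W ^ (4 * K ^ 2)) := by
            rw [hC, mul_pow, mul_pow, ← pow_mul W 2 (2 * K ^ 2)]
            have : 2 * (2 * K ^ 2) = 4 * K ^ 2 := by ring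
            rw [this]
            ring
        _ ≤ W * (W ^ B * W ^ (4 * K ^ 2)) := Nat.mul_le_mul_right _ hWC
        _ = W ^ (1 + B + 4 * K ^ 2) := by ring
        _ ≤ W ^ ((A - 1) * (2 * K)) := by
            apply Nat.pow_le_pow_right hWpos
            have h2 : (A - 1) * (2 * K) = A * (2 * K) - 2 * K := by
              rw [Nat.sub_mul, one_mul]
            have h3 : A * (2 * K) = A * (2 * K - 1) + A := by
              have : 2 * K = (2 * K - 1) + 1 := by omega
              conv_lhs => rw [this]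
              ring
            rw [h2, h3, hB]
            omega
        _ = (W ^ (A - 1)) ^ (2 * K) := by rw [← pow_mul]
        _ ≤ P.card ^ (2 * K) := Nat.pow_le_pow_left hcard _
    have e : 2 * k = K := by omega
    rw [e]
    exact_mod_cast h1
  have hSb := fun c hc0 hcT => S_bound (n := n) (X := W ^ A) (T := W ^ 2) (k := k)
    ZMod.stdAddChar (ZMod.isPrimitive_stdAddChar n) (P := P) hk (by positivity) hPprime hPl hPX
    hPco hsize hm c hc0 hcT
  -- the small point
  have hPne : P.Nonempty := by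
    rw [← Finset.card_pos]
    exact lt_of_lt_of_le (by positivity) hcard
  haveI : Nonempty P := hPne.coe_sort
  set H := 2 * n / W with hH
  have hWn' : W ^ 2 ≤ n := (Nat.pow_le_pow_right hWpos (by omega)).trans hWn
  have hHn : H < n := by
    rw [hH, Nat.div_lt_iff_lt_mul hWpos]
    have : 2 * n < W * n := Nat.mul_lt_mul_of_pos_right (by omega) (by omega)
    linarith [mul_comm W n]
  have hH2 : 2 * (n : ℝ) ^ 2 < ((W ^ 2 : ℕ) : ℝ) * (H : ℝ) ^ 2 := by
    have h1 : 2 * n < W * H + W := by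
      have := Nat.lt_div_mul_add (a := 2 * n) hWpos
      rw [← hH] at this
      linarith [mul_comm W H]
    have h2 : (2 * n : ℝ) < W * H + W := by exact_mod_cast h1
    have h3 : 10 * (W : ℝ) ≤ n := by
      have : 10 * W ≤ n := by nlinarith
      exact_mod_cast this
    have h4 : (1.9 : ℝ) * n ≤ W * H := by linarith
    have h5 : (0 : ℝ) < n := by positivity
    push_cast
    nlinarith
  have hexS : ∀ c : ℤ, c ≠ 0 → |c| ≤ (W ^ 2 : ℕ) →
      2 * ((W ^ 2 : ℕ) : ℝ) * ‖∑ x : P × P, ZMod.stdAddChar ((c : ZMod n) *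
        (-((((x.1 : ℕ) : ZMod n))⁻¹ * (((x.2 : ℕ) : ZMod n))⁻¹)))‖ ≤ (Fintype.card (P × P) : ℝ) := by
    intro c hc0 hcT
    have h1 := hSb (-c) (neg_ne_zero.2 hc0) (by rwa [abs_neg])
    rw [Fintype.card_prod, Fintype.card_coe]
    push_cast
    rw [← sq]
    rw [Fintype.sum_prod_type]
    refine le_trans (le_of_eq ?_) h1
    push_cast
    congr 3
    funext p
    congr 1
    funext q
    congr 1
    ring
  obtain ⟨x, hx⟩ := exists_small (n := n) (T := W ^ 2) (H := H)
    (fun x : P × P => -((((x.1 : ℕ) : ZMod n))⁻¹ * (((x.2 : ℕ) : ZMod n))⁻¹))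
    (by positivity) hHn hH2 hexS
  set w : ZMod n := -((((x.1 : ℕ) : ZMod n))⁻¹ * (((x.2 : ℕ) : ZMod n))⁻¹) with hw
  have hdvd : n ∣ (x.1 : ℕ) * (x.2 : ℕ) * w.val + 1 := by
    rw [← ZMod.natCast_eq_zero_iff]
    push_cast
    rw [ZMod.natCast_zmod_val, hw]
    have h1 := ZMod.coe_mul_inv_eq_one (x.1 : ℕ) (hPco _ x.1.2)
    have h2 := ZMod.coe_mul_inv_eq_one (x.2 : ℕ) (hPco _ x.2.2)
    linear_combination -(((x.1 : ℕ) : ZMod n) * (((x.1 : ℕ) : ZMod n))⁻¹) * h2 - h1
  refine ⟨(x.1 : ℕ) * (x.2 : ℕ), w.val, ?_, ?_, ?_, ?_, hdvd⟩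
  · exact Nat.mul_pos (hPprime _ x.1.2).pos (hPprime _ x.2.2).pos
  · rcases Nat.eq_zero_or_pos w.val with h | h
    · rw [h, mul_zero, zero_add] at hdvd
      exact absurd (Nat.le_of_dvd one_pos hdvd) (by omega)
    · exact h
  · calc (x.1 : ℕ) * (x.2 : ℕ) ≤ W ^ A * W ^ A := Nat.mul_le_mul (hPX _ x.1.2) (hPX _ x.2.2)
      _ = W ^ (2 * A) := by ring
  · calc W * w.val ≤ W * H := Nat.mul_le_mul_left _ hx
      _ ≤ 2 * n := Nat.mul_div_le _ _

end Pool.Agent.H494R2.ModHyp
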